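import Pool.Agent.H79.GM.Lift
import Pool.Agent.H77.AF.Ins
import Pool.Agent.H77.PB.Mcon

/-! # GM.Trans : transfer of torsion relations along a closed relation between point data

`D` (the dominating variety), `D'` point data, both projective (nothing is `off`), `R`, `RY` the points of a closed subset of `D × D'` over `K` and over `Om K`.
`push_rel`: for every choice `g : D.X → D'.X` with `R x (g x)` the map `(P_i) ↦ (g(P_i))` sends `tor (RatEq D k)` to `tor (RatEq D' k)`. -/

namespace H79.GM

open H68.BB H77.AF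

variable {K : Type} [Field K]

/-- the hypotheses of the transfer -/
structure Tr (D D' : PD K) (R : D.X → D'.X → Prop) (RY : D.Y → D'.Y → Prop) : Prop where
  totY : ∀ y, ∃ y', RY y y'
  act : ∀ (σ : Om K ≃ₐ[RatFunc K] Om K) y y', RY y y' → RY (D.act σ y) (D'.act σ y')
  one : ∀ y, D.act 1 y = y
  mul : ∀ σ τ y, D.act (σ * τ) y = D.act σ (D.act τ y)
  one' : ∀ y, D'.act 1 y = y
  mul' : ∀ σ τ y, D'.act (σ * τ) y = D'.act σ (D'.act τ y)
  off : ∀ π y, ¬ D.off π y
  fin : ∀ y : D'.Y, (Set.range fun σ => D'.act σ y).Finite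
  prp : ∀ (π : Place K (Om K)) (y : D'.Y), ∃ x, D'.sp π y x
  spec : ∀ (π : Place K (Om K)) y y' x x', RY y y' → D.sp π y x → D'.sp π y' x' → R x x'
  uniq : ∀ x x' x'', R x x' → R x x'' →
    (Finsupp.single (fun _ => x') 1 - Finsupp.single (fun _ => x'') 1 : Cyc D' 1) ∈ tor (RatEq D' 1)

variable {D D' : PD K} {R : D.X → D'.X → Prop} {RY : D.Y → D'.Y → Prop}


private theorem tr_rel_comp {A B C : Type} {r : A → B → Prop} {s : A → C → Prop} {S : Multiset A} {b : Multiset B}
    (h : Multiset.Rel r S b) : ∀ {c : Multiset C}, Multiset.Rel s S c →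
    Multiset.Rel (fun x y => ∃ a, r a x ∧ s a y) b c := by
  induction h with
  | zero =>
    intro c hc
    rw [Multiset.rel_zero_left] at hc
    rw [hc]
    exact Multiset.Rel.zero
  | cons hab _ ih =>
    intro c hc
    rw [Multiset.rel_cons_left] at hc
    obtain ⟨y, c', hy, hc', rfl⟩ := hc
    exact Multiset.Rel.cons ⟨_, hab, hy⟩ (ih hc')

private theorem tr_rel_nsmul {A B : Type} {r : A → B → Prop} {S : Multiset A} {c : Multiset B} (h : Multiset.Rel r S c)
    (N : ℕ) : Multiset.Rel r (N • S) (N • c) := by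
  induction N with
  | zero =>
    rw [zero_smul, zero_smul]
    exact Multiset.Rel.zero
  | succ N ih =>
    rw [succ_nsmul, succ_nsmul]
    exact Multiset.Rel.add ih h

private theorem tr_rel_sum {A B M : Type} [AddCommGroup M] {r : A → B → Prop} {a : Multiset A} {b : Multiset B}
    (h : Multiset.Rel r a b) (H : AddSubgroup M) (F : A → M) (G : B → M) (hFG : ∀ x y, r x y → G y - F x ∈ H) :
    (b.map G).sum - (a.map F).sum ∈ H := by
  induction h with
  | zero =>
    rw [Multiset.map_zero, Multiset.map_zero, Multiset.sum_zero, sub_zero]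
    exact H.zero_mem
  | cons hab _ ih =>
    rw [Multiset.map_cons, Multiset.map_cons, Multiset.sum_cons, Multiset.sum_cons, add_sub_add_comm]
    exact H.add_mem (hFG _ _ hab) ih

private theorem tr_tuple (h : Tr D D' R RY) {g : D.X → D'.X} (hg : ∀ x, R x (g x)) {k : ℕ} (p : Fin k → D.X)
    (q : Fin k → D'.X) (hpq : ∀ i, R (p i) (q i)) :
    (Finsupp.single q 1 - Finsupp.single (fun i => g (p i)) 1 : Cyc D' k) ∈ tor (RatEq D' k) := by
  obtain ⟨mul, -, hm⟩ := exists_mul D' k
  have h1 := H77.PB.mul_con hm (fun i => Finsupp.single (q i) 1) (fun i => Finsupp.single (g (p i)) 1) (fun i => by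
    have h3 : up (D := D') (Finsupp.single (q i) 1 - Finsupp.single (g (p i)) 1) =
        Finsupp.single (fun _ => q i) 1 - Finsupp.single (fun _ => g (p i)) 1 := by
      rw [map_sub]
      unfold up
      rw [Finsupp.mapDomain.addMonoidHom_apply, Finsupp.mapDomain.addMonoidHom_apply, Finsupp.mapDomain_single,
        Finsupp.mapDomain_single]
    rw [h3]
    exact h.uniq (p i) (q i) (g (p i)) (hpq i) (hg (p i)))
  have h2 := hm q
  have h3 := hm (fun i => g (p i))
  rwa [h2, h3] at h1

/-- a stable multiset of `k`-tuples of `D` has, up to a multiple, a stable lift to `D'` (`lift_stable` with `G = Om K ≃ₐ[RatFunc K] Om K` acting on `Fin k → D.Y` and `Fin k → D'.Y`; the orbit of a tuple is contained in the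
product of the orbits of its entries: `Set.Finite.pi'` or `Set.finite_univ_pi`-like) -/
theorem lift_tuples (h : Tr D D' R RY) {k : ℕ} {S : Multiset (Fin k → D.Y)} (hS : GalStable S) :
    ∃ (N : ℕ) (T : Multiset (Fin k → D'.Y)), 0 < N ∧ GalStable T ∧ Multiset.Rel (fun P Q => ∀ i, RY (P i) (Q i)) (N • S) T := by
  let i1 : MulAction (Om K ≃ₐ[RatFunc K] Om K) (Fin k → D.Y) :=
    { smul := fun σ P i => D.act σ (P i)
      one_smul := fun P => funext fun i => h.one (P i)
      mul_smul := fun σ τ P => funext fun i => h.mul σ τ (P i) }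
  let i2 : MulAction (Om K ≃ₐ[RatFunc K] Om K) (Fin k → D'.Y) :=
    { smul := fun σ P i => D'.act σ (P i)
      one_smul := fun P => funext fun i => h.one' (P i)
      mul_smul := fun σ τ P => funext fun i => h.mul' σ τ (P i) }
  have key := lift_stable (G := Om K ≃ₐ[RatFunc K] Om K) (A := Fin k → D.Y) (B := Fin k → D'.Y)
    (R := fun P Q => ∀ i, RY (P i) (Q i)) (fun P => by
      choose Q hQ using fun i => h.totY (P i)
      exact ⟨Q, hQ⟩) (fun σ P Q hPQ i => h.act σ (P i) (Q i) (hPQ i)) (fun Q => by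
      refine (Set.Finite.pi' fun i => h.fin (Q i)).subset ?_
      rintro _ ⟨σ, rfl⟩ i
      exact ⟨σ, rfl⟩) S hS
  exact key

/-- the fibres: if `S` specialises to `c`, the lift `T` specialises to a multiset `d` with `cyc d - N • g_*(cyc c)` torsion.
Proof: choose `d` by `h.prp` (`T.map`, `Multiset.rel_map`-like; `Rel` to the chosen specialisation); `Multiset.Rel` of `N • c` and `d` for `fun p q => ∀ i, R (p i) (q i)` by composing the relations (`Multiset.Rel.trans`-like by hand:
`Multiset.rel_flip`, or induction; `h.spec`); a pair `p, q` with `R (p i) (q i)` has `single q 1 - single (g ∘ p) 1 ∈ tor` (`mul_con` with `h.uniq`; `exists_mul`). -/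
theorem fibre_rel (h : Tr D D' R RY) {g : D.X → D'.X} (hg : ∀ x, R x (g x)) {k : ℕ} {π : Place K (Om K)} {S : Multiset (Fin k → D.Y)}
    {c : Multiset (Fin k → D.X)} (hc : Fibre π S c) {N : ℕ} {T : Multiset (Fin k → D'.Y)}
    (hT : Multiset.Rel (fun P Q => ∀ i, RY (P i) (Q i)) (N • S) T) :
    ∃ d : Multiset (Fin k → D'.X), Fibre π T d ∧
      cyc (D := D') d - N • Finsupp.mapDomain (fun (P : Fin k → D.X) i => g (P i)) (cyc (D := D) c) ∈ tor (RatEq D' k) := by
  obtain ⟨S1, S2, rfl, hR, hoff⟩ := hc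
  have hS2 : S2 = 0 := by
    refine Multiset.eq_zero_of_forall_notMem fun P hP => ?_
    obtain ⟨i, hi⟩ := hoff P hP
    exact h.off π (P i) hi
  subst hS2
  rw [add_zero] at hT
  choose xs hxs using h.prp π
  refine ⟨T.map fun Q i => xs (Q i), ⟨T, 0, (add_zero T).symm, ?_, fun P hP => absurd hP (Multiset.notMem_zero P)⟩, ?_⟩
  · rw [Multiset.rel_map_right]
    exact Multiset.rel_refl_of_refl_on fun P _ i => hxs (P i)
  · have h1 := tr_rel_comp (tr_rel_nsmul hR N) hT
    have h2 := tr_rel_sum h1 (tor (RatEq D' k))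
      (fun p => (Finsupp.single (fun i => g (p i)) 1 : Cyc D' k))
      (fun Q => (Finsupp.single (fun i => xs (Q i)) 1 : Cyc D' k)) (by
        rintro p Q ⟨P, hP1, hP2⟩
        exact tr_tuple h hg p (fun i => xs (Q i)) fun i => h.spec π (P i) (Q i) (p i) (xs (Q i)) (hP2 i) (hP1 i) (hxs (Q i)))
    have h3 : (T.map fun Q => (Finsupp.single (fun i => xs (Q i)) 1 : Cyc D' k)).sum =
        cyc (D := D') (T.map fun Q i => xs (Q i)) := by
      unfold cyc
      rw [Multiset.map_map]
      rfl
    have h4 : ((N • c).map fun p => (Finsupp.single (fun i => g (p i)) 1 : Cyc D' k)).sum =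
        N • Finsupp.mapDomain (fun (P : Fin k → D.X) i => g (P i)) (cyc (D := D) c) := by
      rw [Multiset.map_nsmul, Multiset.sum_nsmul]
      congr 1
      unfold cyc
      rw [← Finsupp.mapDomain.addMonoidHom_apply, map_multiset_sum, Multiset.map_map]
      congr 1
      refine Multiset.map_congr rfl fun P _ => ?_
      rw [Function.comp_apply, Finsupp.mapDomain.addMonoidHom_apply, Finsupp.mapDomain_single]
    rw [h3, h4] at h2
    exact h2

/-- the transfer -/
theorem push_rel (h : Tr D D' R RY) {g : D.X → D'.X} (hg : ∀ x, R x (g x)) {k : ℕ} {z : Cyc D k} (hz : z ∈ tor (RatEq D k)) :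
    (Finsupp.mapDomain (fun (P : Fin k → D.X) i => g (P i)) z : Cyc D' k) ∈ tor (RatEq D' k) := by
  let F : Cyc D k →+ Cyc D' k := Finsupp.mapDomain.addMonoidHom (fun (P : Fin k → D.X) i => g (P i))
  have key : ∀ z ∈ RatEq D k, F z ∈ tor (RatEq D' k) := by
    intro z hz
    unfold H77.AF.RatEq at hz
    induction hz using AddSubgroup.closure_induction with
    | mem z hz =>
      obtain ⟨S, π, π', c, c', hG, hF, hF', rfl⟩ := hz
      obtain ⟨N, T, hN, hT1, hT2⟩ := lift_tuples h hG
      obtain ⟨d, hd1, hd2⟩ := fibre_rel h hg hF hT2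
      obtain ⟨d', hd1', hd2'⟩ := fibre_rel h hg hF' hT2
      have h1 : cyc (D := D') d - cyc (D := D') d' ∈ tor (RatEq D' k) :=
        le_tor _ (AddSubgroup.subset_closure ⟨T, π, π', d, d', hT1, hd1, hd1', rfl⟩)
      refine tor_sat hN ?_
      have h3 := AddSubgroup.add_mem _ (AddSubgroup.sub_mem _ h1 hd2) hd2'
      have h4 : ∀ a a' b b' : Cyc D' k, a - a' - (a - b) + (a' - b') = b - b' := by
        intro a a' b b'
        abel
      rw [h4] at h3
      rw [map_sub, smul_sub]
      exact h3
    | zero => rw [map_zero]; exact AddSubgroup.zero_mem _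
    | add x y _ _ hx hy => rw [map_add]; exact AddSubgroup.add_mem _ hx hy
    | neg x _ hx => rw [map_neg]; exact AddSubgroup.neg_mem _ hx
  obtain ⟨N, hN, h1⟩ := hz
  refine tor_sat hN ?_
  have h2 := key _ h1
  rw [map_nsmul] at h2
  exact h2

end H79.GM
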