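import Pool.Agent.H79.GM.Ev
import Pool.Agent.H8.FX.Bas
import Pool.Agent.H77.AF.Mult

/-! # GM.XPd : the point data of `X`, comparison with the explicit form of rational equivalence

`to_ratV`: as `H77.PB.cmpV` (`H77/PB/Cmp2.lean`).  `of_ratV`: `RatV X K k` is contained in the image of `RatEq (xv X K) k` under the injective map `mapDomain (fun P i => (P i).1)`: for a generator the multisets `S`, `c`, `c'` consist of tuples of points of `X`
(`onV_sp`), so they are images of multisets of tuples of subtypes (`Multiset.map` of `attach`/`pmap`, or `Multiset.canLift`); then use that `mapDomain` is injective (`Finsupp.mapDomain_injective`).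
`of_ratES`: the same for `W` over `K` (`ES.Sp_onW`). -/

namespace H79.GM

open H68.BB H77.AF

variable {K0 : Type} [Field K0] {s m : ℕ}

/-- data for the comparison of point data with the explicit form -/
private structure H11Emb {K : Type} [Field K] (D : PD K) (A B : Type) where
  ix : D.X → A
  iy : D.Y → B
  q : B → Prop
  sp' : Place K (Om K) → B → A → Prop
  act' : (Om K ≃ₐ[RatFunc K] Om K) → B → B
  hix : Function.Injective ix
  hiy : Function.Injective iy
  hq : ∀ y, q (iy y)
  hq' : ∀ b, q b → ∃ y, iy y = b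
  hsp : ∀ π y x, D.sp π y x ↔ sp' π (iy y) (ix x)
  hact : ∀ σ y, iy (D.act σ y) = act' σ (iy y)
  hoff : ∀ π y, ¬ D.off π y
  hcl : ∀ π b a, q b → sp' π b a → ∃ x, ix x = a

/-- the cycle of a multiset -/
private noncomputable def h11cyc {A : Type} {k : ℕ} (c : Multiset (Fin k → A)) : (Fin k → A) →₀ ℤ :=
  (c.map fun P => (Finsupp.single P 1 : (Fin k → A) →₀ ℤ)).sum

private theorem H11_map {α β : Type} (g : α → β) (S : Multiset β) (h : ∀ b ∈ S, ∃ a, g a = b) : ∃ S0 : Multiset α, S0.map g = S := by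
  induction S using Multiset.induction with
  | empty => exact ⟨0, rfl⟩
  | cons b S ih =>
    obtain ⟨S0, hS0⟩ := ih fun b' hb' => h b' (Multiset.mem_cons_of_mem hb')
    obtain ⟨a, ha⟩ := h b (Multiset.mem_cons_self _ _)
    exact ⟨a ::ₘ S0, by rw [Multiset.map_cons, ha, hS0]⟩

section gen
variable {K : Type} [Field K] {D : PD K} {A B : Type}

/-- the explicit form -/
private noncomputable def h11Rat (E : H11Emb D A B) (k : ℕ) : AddSubgroup ((Fin k → A) →₀ ℤ) :=
  AddSubgroup.closure {z | ∃ (S : Multiset (Fin k → B)) (π π' : Place K (Om K)) (c c' : Multiset (Fin k → A)),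
    (∀ P ∈ S, ∀ i, E.q (P i)) ∧ (∀ σ : Om K ≃ₐ[RatFunc K] Om K, S.map (fun P i => E.act' σ (P i)) = S) ∧
    Multiset.Rel (fun P p => ∀ i, E.sp' π (P i) (p i)) S c ∧ Multiset.Rel (fun P p => ∀ i, E.sp' π' (P i) (p i)) S c' ∧
    z = h11cyc c - h11cyc c'}

private theorem H11_cyc (E : H11Emb D A B) {k : ℕ} (c : Multiset (Fin k → D.X)) :
    Finsupp.mapDomain.addMonoidHom (fun (P : Fin k → D.X) i => E.ix (P i)) (cyc (D := D) c) =
      h11cyc (c.map (fun P i => E.ix (P i))) := by
  unfold cyc h11cyc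
  rw [map_multiset_sum, Multiset.map_map, Multiset.map_map]
  congr 1
  refine Multiset.map_congr rfl fun P _ => ?_
  rw [Function.comp_apply, Function.comp_apply, Finsupp.mapDomain.addMonoidHom_apply, Finsupp.mapDomain_single]

private theorem H11_fib (E : H11Emb D A B) {k : ℕ} {π : Place K (Om K)} {S : Multiset (Fin k → D.Y)}
    {c : Multiset (Fin k → D.X)} :
    Fibre (D := D) π S c ↔
    Multiset.Rel (fun P p => ∀ i, E.sp' π (P i) (p i)) (S.map (fun P i => E.iy (P i))) (c.map (fun P i => E.ix (P i))) := by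
  constructor
  · rintro ⟨S1, S2, hS, hR, hoff⟩
    have h2 : S2 = 0 := by
      apply Multiset.eq_zero_of_forall_notMem
      intro P hP
      obtain ⟨i, hi⟩ := hoff P hP
      exact E.hoff _ _ hi
    rw [hS, h2, add_zero, Multiset.rel_map]
    exact hR.mono fun P _ p _ hPp i => (E.hsp _ _ _).1 (hPp i)
  · intro h
    rw [Multiset.rel_map] at h
    refine ⟨S, 0, (add_zero S).symm, ?_, fun P hP => absurd hP (Multiset.notMem_zero P)⟩
    exact h.mono fun P _ p _ hPp i => (E.hsp _ _ _).2 (hPp i)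

private theorem H11_to (E : H11Emb D A B) {k : ℕ} {z : Cyc D k} (hz : z ∈ RatEq D k) :
    Finsupp.mapDomain.addMonoidHom (fun (P : Fin k → D.X) i => E.ix (P i)) z ∈ h11Rat E k := by
  unfold H77.AF.RatEq at hz
  induction hz using AddSubgroup.closure_induction with
  | mem x hx =>
    obtain ⟨S, π, π', c, c', hG, hF, hF', rfl⟩ := hx
    rw [map_sub, H11_cyc, H11_cyc]
    apply AddSubgroup.subset_closure
    refine ⟨S.map (fun P i => E.iy (P i)), π, π', _, _, ?_, ?_, (H11_fib E).1 hF, (H11_fib E).1 hF', rfl⟩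
    · intro P hP i
      obtain ⟨Q, _, rfl⟩ := Multiset.mem_map.1 hP
      exact E.hq (Q i)
    · intro σ
      rw [Multiset.map_map]
      have h1 := congrArg (Multiset.map (fun (P : Fin k → D.Y) i => E.iy (P i))) (hG σ)
      rw [Multiset.map_map] at h1
      refine Eq.trans ?_ h1
      refine Multiset.map_congr rfl fun P _ => ?_
      funext i
      exact (E.hact σ (P i)).symm
  | zero => rw [map_zero]; exact AddSubgroup.zero_mem _
  | add x y _ _ hx hy => rw [map_add]; exact AddSubgroup.add_mem _ hx hy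
  | neg x _ hx => rw [map_neg]; exact AddSubgroup.neg_mem _ hx

private theorem H11_lift (E : H11Emb D A B) {k : ℕ} {π : Place K (Om K)} {S : Multiset (Fin k → B)} {c : Multiset (Fin k → A)}
    (hS : ∀ P ∈ S, ∀ i, E.q (P i)) (h : Multiset.Rel (fun P p => ∀ i, E.sp' π (P i) (p i)) S c) :
    ∃ c0 : Multiset (Fin k → D.X), c0.map (fun P i => E.ix (P i)) = c := by
  refine H11_map _ c fun p hp => ?_
  obtain ⟨P, hP, hPp⟩ := Multiset.exists_mem_of_rel_of_mem (Multiset.rel_flip.2 h) hp
  choose x hx using fun i => E.hcl π (P i) (p i) (hS P hP i) (hPp i)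
  exact ⟨x, funext hx⟩

private theorem H11_of (E : H11Emb D A B) {k : ℕ} {z : Cyc D k}
    (hz : Finsupp.mapDomain.addMonoidHom (fun (P : Fin k → D.X) i => E.ix (P i)) z ∈ h11Rat E k) : z ∈ RatEq D k := by
  have hinj : Function.Injective (fun (P : Fin k → D.X) i => E.ix (P i)) := fun P Q h =>
    funext fun i => E.hix (congrFun h i)
  have hinjy : Function.Injective (fun (P : Fin k → D.Y) i => E.iy (P i)) := fun P Q h =>
    funext fun i => E.hiy (congrFun h i)
  have hle : h11Rat E k ≤ (RatEq D k).map (Finsupp.mapDomain.addMonoidHom (fun (P : Fin k → D.X) i => E.ix (P i))) := by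
    refine (AddSubgroup.closure_le _).2 ?_
    rintro x ⟨S, π, π', c, c', hS, hG, hF, hF', rfl⟩
    obtain ⟨c0, rfl⟩ := H11_lift E hS hF
    obtain ⟨c0', rfl⟩ := H11_lift E hS hF'
    obtain ⟨S0, rfl⟩ : ∃ S0 : Multiset (Fin k → D.Y), S0.map (fun P i => E.iy (P i)) = S := by
      refine H11_map _ S fun P hP => ?_
      choose y hy using fun i => E.hq' (P i) (hS P hP i)
      exact ⟨y, funext hy⟩
    refine ⟨cyc c0 - cyc c0', AddSubgroup.subset_closure ⟨S0, π, π', c0, c0', ?_, (H11_fib E).2 hF, (H11_fib E).2 hF', rfl⟩, ?_⟩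
    · intro σ
      apply Multiset.map_injective hinjy
      have h1 := hG σ
      rw [Multiset.map_map] at h1 ⊢
      refine Eq.trans ?_ h1
      refine Multiset.map_congr rfl fun P _ => ?_
      funext i
      exact E.hact σ (P i)
    · rw [map_sub, H11_cyc, H11_cyc]
  obtain ⟨z', hz', h1⟩ := hle hz
  have h2 : z' = z := Finsupp.mapDomain_injective hinj h1
  rw [← h2]
  exact hz'

end gen

/-- the point data of `X` over `K` -/
noncomputable def xv (X : Var K0 m) (K : Type) [Field K] [Algebra K0 K] : PD K where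
  X := {u : Fin m → K // OnV X u}
  Y := {U : Fin m → Om K // OnV X U}
  act σ U := ⟨fun j => σ (U.1 j), onV_sigma σ U.2⟩
  sp π U u := FX.SpV X.w π U.1 u.1
  off _ _ := False
  cst u := ⟨fun j => algebraMap K (Om K) (u.1 j), onV_cst u.2⟩
  act_cst := fun σ u => Subtype.ext (by
    funext j
    change σ (algebraMap K (Om K) (u.1 j)) = algebraMap K (Om K) (u.1 j)
    rw [IsScalarTower.algebraMap_apply K (RatFunc K) (Om K), AlgEquiv.commutes])
  sp_cst := fun π u => ⟨u.2.1, 1, one_ne_zero, fun i => by rw [one_pow, one_mul]; exact π.const (u.1 i)⟩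

variable {K : Type} [Field K] [Algebra K0 K]

theorem xv_prp [IsAlgClosed K] {X : Var K0 m} (hX : X.Ok) (π : Place K (Om K)) (y : (xv X K).Y) : ∃ x, (xv X K).sp π y x := by
  obtain ⟨u, hu⟩ := FX.SpV_exists hX.w π y.2.1
  exact ⟨⟨u, onV_sp hX y.2 hu⟩, hu⟩

private noncomputable def h11E (X : Var K0 m) (hX : X.Ok) : H11Emb (xv X K) (Fin m → K) (Fin m → Om K) where
  ix := Subtype.val
  iy := Subtype.val
  q U := OnV X U
  sp' π U u := FX.SpV X.w π U u
  act' σ U := fun j => σ (U j)
  hix := Subtype.val_injective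
  hiy := Subtype.val_injective
  hq y := y.2
  hq' b hb := ⟨⟨b, hb⟩, rfl⟩
  hsp _ _ _ := Iff.rfl
  hact _ _ := rfl
  hoff _ _ h := h
  hcl _ _ a hb h := ⟨⟨a, onV_sp hX hb h⟩, rfl⟩

private noncomputable def h11W (W : ES.Wm K s) (hW : W.Ok) : H11Emb (H77.PB.pw W) (ES.Pt s K) (ES.Pt s (Om K)) where
  ix := Subtype.val
  iy := Subtype.val
  q P := ES.OnW W P
  sp' π P p := ES.Sp W π P p
  act' σ P := P.map σ
  hix := Subtype.val_injective
  hiy := Subtype.val_injective
  hq y := y.2
  hq' b hb := ⟨⟨b, hb⟩, rfl⟩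
  hsp _ _ _ := Iff.rfl
  hact _ _ := rfl
  hoff _ _ h := h
  hcl _ _ a hb h := ⟨⟨a, ES.Sp_onW hW hb h⟩, rfl⟩

theorem xv_fin {X : Var K0 m} (y : (xv X K).Y) : (Set.range fun σ => (xv X K).act σ y).Finite := by
  refine Set.Finite.of_finite_image (f := Subtype.val) ?_ (Subtype.val_injective.injOn)
  refine (vec_fin y.1).subset ?_
  rintro _ ⟨_, ⟨σ, rfl⟩, rfl⟩
  exact ⟨σ, rfl⟩

theorem to_ratV {X : Var K0 m} {k : ℕ} {z : Cyc (xv X K) k} (hz : z ∈ RatEq (xv X K) k) :
    (Finsupp.mapDomain (fun (P : Fin k → (xv X K).X) i => (P i).1) z : (Fin k → Fin m → K) →₀ ℤ) ∈ RatV X K k := by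
  unfold H77.AF.RatEq at hz
  have key : Finsupp.mapDomain.addMonoidHom (fun (P : Fin k → (xv X K).X) i => (P i).1) z ∈ RatV X K k := by
    induction hz using AddSubgroup.closure_induction with
    | mem x hx =>
      obtain ⟨S, π, π', c, c', hG, hF, hF', rfl⟩ := hx
      have hfib : ∀ {π : Place K (Om K)} {c : Multiset (Fin k → (xv X K).X)}, Fibre (D := xv X K) π S c →
          Multiset.Rel (fun P p => ∀ i, FX.SpV X.w π (P i) (p i)) (S.map (fun P i => (P i).1)) (c.map (fun P i => (P i).1)) := by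
        rintro π c ⟨S1, S2, hS, hR, hoff⟩
        have h2 : S2 = 0 := by
          apply Multiset.eq_zero_of_forall_notMem
          intro P hP
          obtain ⟨i, hi⟩ := hoff P hP
          exact hi
        rw [hS, h2, add_zero, Multiset.rel_map]
        exact hR.mono fun P _ p _ hPp i => hPp i
      have hcyc : ∀ c : Multiset (Fin k → (xv X K).X),
          Finsupp.mapDomain.addMonoidHom (fun (P : Fin k → (xv X K).X) i => (P i).1) (cyc (D := xv X K) c) =
            cycV (c.map (fun P i => (P i).1)) := by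
        intro c
        unfold cyc cycV
        rw [map_multiset_sum, Multiset.map_map, Multiset.map_map]
        congr 1
        refine Multiset.map_congr rfl fun P _ => ?_
        rw [Function.comp_apply, Function.comp_apply, Finsupp.mapDomain.addMonoidHom_apply, Finsupp.mapDomain_single]
      rw [map_sub, hcyc, hcyc]
      apply AddSubgroup.subset_closure
      refine ⟨S.map (fun P i => (P i).1), π, π', _, _, ?_, ?_, hfib hF, hfib hF', rfl⟩
      · intro P hP i
        obtain ⟨Q, _, rfl⟩ := Multiset.mem_map.1 hP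
        exact (Q i).2
      · intro σ
        rw [Multiset.map_map]
        have h1 := congrArg (Multiset.map (fun (P : Fin k → (xv X K).Y) i => (P i).1)) (hG σ)
        rw [Multiset.map_map] at h1
        exact h1
    | zero => rw [map_zero]; exact AddSubgroup.zero_mem _
    | add x y _ _ hx hy => rw [map_add]; exact AddSubgroup.add_mem _ hx hy
    | neg x _ hx => rw [map_neg]; exact AddSubgroup.neg_mem _ hx
  exact key

theorem of_ratV {X : Var K0 m} (hX : X.Ok) {k : ℕ} {z : Cyc (xv X K) k}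
    (hz : (Finsupp.mapDomain (fun (P : Fin k → (xv X K).X) i => (P i).1) z : (Fin k → Fin m → K) →₀ ℤ) ∈ RatV X K k) :
    z ∈ RatEq (xv X K) k := by
  have h : RatV X K k = h11Rat (h11E X hX) k := rfl
  rw [h] at hz
  exact H11_of (h11E X hX) hz

theorem of_ratES {W : ES.Wm K s} (hW : W.Ok) {k : ℕ} {z : Cyc (H77.PB.pw W) k}
    (hz : (Finsupp.mapDomain (fun (P : Fin k → (H77.PB.pw W).X) i => (P i).1) z : ES.Cyc k s K) ∈ ES.RatEq k W) :
    z ∈ RatEq (H77.PB.pw W) k := by
  have h : ES.RatEq k W = h11Rat (h11W W hW) k := rfl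
  rw [h] at hz
  exact H11_of (h11W W hW) hz

end H79.GM
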