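import Pool.Agent.H79.GM.XPd
import Pool.Agent.H79.GM.Trans
import Pool.Agent.H77.PB.Main
import Pool.Agent.H8.SC.Box

/-! # GM.Main : transfer of torsion relations from an elliptic surface `W` to a variety `X` dominated by `W`

`transfer_rel` is the form used for both hand-ins: a cycle `c` on `X^k`, a choice `w` of points of `W` over the points of `X`; if the cycle `w_* c` is torsion in `CH_0(W^k)` then `c` is torsion in `CH_0(X^k)`.
`gm_alt`: the alternating products. -/

namespace H79.GM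

open H68.BB H77.AF H77.PB

variable {K0 : Type} [Field K0] {s m : ℕ} {W : ES.Wm K0 s} {X : Var K0 m} {G : Set (MvPolynomial ((Fin s ⊕ Fin 2) ⊕ Fin m) K0)}

/-- the hypotheses of the transfer hold for `W` and `X` over `K` -/
theorem tr_dom (hX : X.Ok) (hG : Dom W X G) (K : Type) [Field K] [IsAlgClosed K] [Algebra K0 K] :
    Tr (pw (bc K W)) (xv X K) (fun P u => InG G P.1 u.1) (fun P U => InG G P.1 U.1) where
  totY := fun y => by
    obtain ⟨u, hu, h⟩ := hG.onW (Om K) y.1 (bc_on.1 y.2)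
    exact ⟨⟨u, hu⟩, h⟩
  act := fun σ y y' h => inG_sigma σ h
  one := fun y => Subtype.ext rfl
  mul := fun σ τ y => Subtype.ext rfl
  one' := fun y => Subtype.ext rfl
  mul' := fun σ τ y => Subtype.ext rfl
  off := fun π y h => h
  fin := xv_fin
  prp := fun π y => xv_prp hX π y
  spec := fun π y y' x x' h hs hs' => inG_sp hG.hom h hs hs'
  uniq := fun x x' x'' h h' => by
    obtain ⟨N, hN, h1⟩ := hG.uniq K x.1 x'.1 x''.1 (bc_on.1 x.2) x'.2 x''.2 h h'
    refine ⟨N, hN, of_ratV hX ?_⟩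
    have e : ∀ u : (xv X K).X, (Finsupp.mapDomain (fun (P : Fin 1 → (xv X K).X) i => (P i).1) (Finsupp.single (fun _ => u) 1) :
        (Fin 1 → Fin m → K) →₀ ℤ) = Finsupp.single (fun _ => u.1) 1 := fun u => Finsupp.mapDomain_single
    have e2 := map_nsmul (Finsupp.mapDomain.addMonoidHom (fun (P : Fin 1 → (xv X K).X) i => (P i).1) : Cyc (xv X K) 1 →+ ((Fin 1 → Fin m → K) →₀ ℤ)) N
      (Finsupp.single (fun _ => x') 1 - Finsupp.single (fun _ => x'') 1)
    have e3 := map_sub (Finsupp.mapDomain.addMonoidHom (fun (P : Fin 1 → (xv X K).X) i => (P i).1) : Cyc (xv X K) 1 →+ ((Fin 1 → Fin m → K) →₀ ℤ))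
      (Finsupp.single (fun _ => x') 1) (Finsupp.single (fun _ => x'') 1)
    rw [e3] at e2
    rw [Finsupp.mapDomain.addMonoidHom_apply, Finsupp.mapDomain.addMonoidHom_apply, Finsupp.mapDomain.addMonoidHom_apply, e, e] at e2
    rw [e2]
    exact h1

/-- cycles which agree point by point up to torsion -/
private theorem sub_map {K : Type} [Field K] {D : PD K} {f : D.X → D.X}
    (hf : ∀ x, (Finsupp.single (fun _ => x) 1 - Finsupp.single (fun _ => f x) 1 : Cyc D 1) ∈ tor (RatEq D 1)) {k : ℕ} (c : Cyc D k) :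
    c - (Finsupp.mapDomain (fun (P : Fin k → D.X) i => f (P i)) c : Cyc D k) ∈ tor (RatEq D k) := by
  classical
  obtain ⟨mul, _, hpr⟩ := exists_mul D k
  have h1 : ∀ P : Fin k → D.X, (Finsupp.single P 1 - Finsupp.single (fun i => f (P i)) 1 : Cyc D k) ∈ tor (RatEq D k) := by
    intro P
    have h2 := mul_con hpr (fun i => (Finsupp.single (P i) 1 : Cyc1 D)) (fun i => (Finsupp.single (f (P i)) 1 : Cyc1 D)) fun i => by
      have h3 : up (D := D) (Finsupp.single (P i) 1 - Finsupp.single (f (P i)) 1) =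
          Finsupp.single (fun _ => P i) 1 - Finsupp.single (fun _ => f (P i)) 1 := by
        rw [map_sub]
        unfold up
        rw [Finsupp.mapDomain.addMonoidHom_apply, Finsupp.mapDomain.addMonoidHom_apply, Finsupp.mapDomain_single,
          Finsupp.mapDomain_single]
      rw [h3]
      exact hf (P i)
    rw [hpr, hpr] at h2
    exact h2
  induction c using Finsupp.induction_linear with
  | zero =>
    rw [Finsupp.mapDomain_zero, sub_zero]
    exact AddSubgroup.zero_mem _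
  | add a b ha hb =>
    rw [Finsupp.mapDomain_add, add_sub_add_comm]
    exact AddSubgroup.add_mem _ ha hb
  | single P n =>
    rw [Finsupp.mapDomain_single]
    have h2 : (Finsupp.single P n - Finsupp.single (fun i => f (P i)) n : Cyc D k) =
        n • (Finsupp.single P 1 - Finsupp.single (fun i => f (P i)) 1) := by
      rw [smul_sub, Finsupp.smul_single, Finsupp.smul_single, smul_eq_mul, mul_one]
    rw [h2]
    exact AddSubgroup.zsmul_mem _ (h1 P) n

/-- transfer of relations -/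
theorem transfer_rel (hW : W.Ok) (hX : X.Ok) (hG : Dom W X G) (K : Type) [Field K] [IsAlgClosed K] [Algebra K0 K]
    {w : (Fin m → K) → ES.Pt s K} (hw : ∀ u, OnV X u → ES.OnW W (w u) ∧ InG G (w u) u) {k : ℕ} {c : (Fin k → Fin m → K) →₀ ℤ}
    (hc : ∀ P ∈ c.support, ∀ i, OnV X (P i)) {N : ℕ} (hN : 0 < N)
    (h : N • (Finsupp.mapDomain (fun (P : Fin k → Fin m → K) i => w (P i)) c : ES.Cyc k s K) ∈ ES.RatEq k (bc K W)) :
    ∃ N' : ℕ, 0 < N' ∧ N' • c ∈ RatV X K k := by
  classical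
  have hT := tr_dom (W := W) hX hG K
  let ι : (Fin k → (xv X K).X) → Fin k → Fin m → K := fun P i => (P i).1
  have hι : Function.Injective ι := fun P Q h => funext fun i => Subtype.ext (congrFun h i)
  obtain ⟨c', rfl⟩ : ∃ c' : Cyc (xv X K) k, Finsupp.mapDomain ι c' = c := by
    refine ⟨Finsupp.comapDomain ι c hι.injOn, Finsupp.mapDomain_comapDomain ι hι c fun P hP => ?_⟩
    exact ⟨fun i => ⟨P i, hc P (Finset.mem_coe.1 hP) i⟩, rfl⟩
  let w' : (xv X K).X → (pw (bc K W)).X := fun u => ⟨w u.1, bc_on.2 (hw u.1 u.2).1⟩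
  have hg : ∀ x : (pw (bc K W)).X, ∃ u : (xv X K).X, InG G x.1 u.1 := fun x => by
    obtain ⟨u, hu, h⟩ := hG.onW K x.1 (bc_on.1 x.2)
    exact ⟨⟨u, hu⟩, h⟩
  choose g hg using hg
  have h1 : (Finsupp.mapDomain (fun (P : Fin k → (xv X K).X) i => w' (P i)) c' : Cyc (pw (bc K W)) k) ∈ tor (RatEq (pw (bc K W)) k) := by
    refine ⟨N, hN, of_ratES (bc_ok hW) ?_⟩
    have e : (Finsupp.mapDomain (fun (P : Fin k → (pw (bc K W)).X) i => (P i).1)
        (N • (Finsupp.mapDomain (fun (P : Fin k → (xv X K).X) i => w' (P i)) c' : Cyc (pw (bc K W)) k)) : ES.Cyc k s K) =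
        N • (Finsupp.mapDomain (fun (P : Fin k → Fin m → K) i => w (P i)) (Finsupp.mapDomain ι c') : ES.Cyc k s K) := by
      have e1 := map_nsmul (Finsupp.mapDomain.addMonoidHom (fun (P : Fin k → (pw (bc K W)).X) i => (P i).1) : Cyc (pw (bc K W)) k →+ ES.Cyc k s K) N
        (Finsupp.mapDomain (fun (P : Fin k → (xv X K).X) i => w' (P i)) c')
      refine e1.trans ?_
      rw [Finsupp.mapDomain.addMonoidHom_apply, ← Finsupp.mapDomain_comp, ← Finsupp.mapDomain_comp]
      rfl
    rw [e]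
    exact h
  have h2 := push_rel hT hg h1
  rw [← Finsupp.mapDomain_comp] at h2
  have h3 : c' - (Finsupp.mapDomain (fun (P : Fin k → (xv X K).X) i => g (w' (P i))) c' : Cyc (xv X K) k) ∈ tor (RatEq (xv X K) k) :=
    sub_map (f := fun u => g (w' u)) (fun u => hT.uniq (w' u) u (g (w' u)) (hw u.1 u.2).2 (hg (w' u))) c'
  have h4 := AddSubgroup.add_mem _ h3 h2
  have h5 : c' ∈ tor (RatEq (xv X K) k) := by
    have e : c' - (Finsupp.mapDomain (fun (P : Fin k → (xv X K).X) i => g (w' (P i))) c' : Cyc (xv X K) k) +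
        Finsupp.mapDomain ((fun (P : Fin k → (pw (bc K W)).X) i => g (P i)) ∘ fun (P : Fin k → (xv X K).X) i => w' (P i)) c' = c' :=
      sub_add_cancel _ _
    rw [e] at h4
    exact h4
  obtain ⟨N', hN', h6⟩ := h5
  refine ⟨N', hN', ?_⟩
  have h7 := to_ratV h6
  have e2 := map_nsmul (Finsupp.mapDomain.addMonoidHom ι : Cyc (xv X K) k →+ ((Fin k → Fin m → K) →₀ ℤ)) N' c'
  rw [Finsupp.mapDomain.addMonoidHom_apply, Finsupp.mapDomain.addMonoidHom_apply] at e2
  rw [← e2]
  exact h7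

/-- push-forward of exterior products -/
theorem prodX_map {T T' : Type} (w : T → T') {k : ℕ} (z : Fin k → (T →₀ ℤ)) :
    (Finsupp.mapDomain (fun (P : Fin k → T) i => w (P i)) (prodX z) : (Fin k → T') →₀ ℤ) = prodX (fun i => (z i).mapDomain w) := by
  classical
  have e : ∀ (T : Type) (z : Fin k → (T →₀ ℤ)), prodX z = SCX.boxX z := fun T z => by
    ext P
    rw [prodX_apply, SCX.boxX_apply]
  rw [e, e]
  let L : ((Fin k → T) →₀ ℤ) →ₗ[ℤ] ((Fin k → T') →₀ ℤ) := Finsupp.lmapDomain ℤ ℤ fun (P : Fin k → T) i => w (P i)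
  have h : L.compMultilinearMap (SCX.boxXM k T) = (SCX.boxXM k T').compLinearMap fun _ => Finsupp.lmapDomain ℤ ℤ w := by
    refine Module.Basis.ext_multilinear (fun _ => Finsupp.basisSingleOne) ?_
    intro v
    simp only [LinearMap.compMultilinearMap_apply, MultilinearMap.compLinearMap_apply, SCX.boxXM_apply, Finsupp.coe_basisSingleOne,
      Finsupp.lmapDomain_apply, Finsupp.mapDomain_single, L]
    rw [SCX.boxX_single, SCX.boxX_single, Finsupp.mapDomain_single]
  have h1 := DFunLike.congr_fun h z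
  exact h1

private theorem prodX_supp {T : Type} {p : T → Prop} {k : ℕ} {z : Fin k → (T →₀ ℤ)} (hz : ∀ i, ∀ u ∈ (z i).support, p u) :
    ∀ P ∈ (prodX z).support, ∀ i, p (P i) := by
  intro P hP i
  rw [Finsupp.mem_support_iff, prodX_apply] at hP
  refine hz i (P i) (Finsupp.mem_support_iff.2 fun h => hP ?_)
  exact Finset.prod_eq_zero (Finset.mem_univ i) h

private theorem altX_supp {T : Type} {p : T → Prop} {k : ℕ} {z : Fin k → (T →₀ ℤ)} (hz : ∀ i, ∀ u ∈ (z i).support, p u) :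
    ∀ P ∈ (altX z).support, ∀ i, p (P i) := by
  classical
  intro P hP i
  by_contra hi
  rw [Finsupp.mem_support_iff] at hP
  apply hP
  unfold altX
  rw [Finsupp.finset_sum_apply]
  refine Finset.sum_eq_zero fun σ _ => ?_
  have h1 : prodX (fun i => z (σ i)) P = 0 := by
    by_contra h2
    exact hi (prodX_supp (p := p) (fun i => hz (σ i)) P (Finsupp.mem_support_iff.2 h2) i)
  rw [Finsupp.smul_apply, h1, smul_zero]

theorem altX_map {T T' : Type} (w : T → T') {k : ℕ} (z : Fin k → (T →₀ ℤ)) :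
    (Finsupp.mapDomain (fun (P : Fin k → T) i => w (P i)) (altX z) : (Fin k → T') →₀ ℤ) = altX (fun i => (z i).mapDomain w) := by
  unfold altX
  have h1 := map_sum (Finsupp.mapDomain.addMonoidHom (fun (P : Fin k → T) i => w (P i)) : ((Fin k → T) →₀ ℤ) →+ ((Fin k → T') →₀ ℤ))
    (fun σ : Equiv.Perm (Fin k) => (Equiv.Perm.sign σ : ℤ) • prodX (fun i => z (σ i))) Finset.univ
  refine h1.trans (Finset.sum_congr rfl fun σ _ => ?_)
  rw [map_zsmul, Finsupp.mapDomain.addMonoidHom_apply, prodX_map]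

/-- the alternating products -/
theorem gm_alt [IsAlgClosed K0] [CharZero K0] (hW : W.Ok) (hC : Curve W) (hD : W.b ^ 2 - W.a ^ 3 ∉ Ideal.span W.I) (hX : X.Ok)
    (hG : Dom W X G) :
    ∃ k0 : ℕ, ∀ k, k0 ≤ k → ∀ (K : Type) [Field K] [IsAlgClosed K] [Algebra K0 K] (z : Fin k → ((Fin m → K) →₀ ℤ)),
      (∀ i, ((z i).sum fun _ n => n) = 0) → (∀ i, ∀ u ∈ (z i).support, OnV X u) →
      ∃ N : ℕ, 0 < N ∧ N • altX z ∈ RatV X K k := by
  classical
  obtain ⟨k0, hk0⟩ := main_alt hW hC hD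
  refine ⟨k0, ?_⟩
  intro k hk K _ _ _ z hdeg hz
  have hw : ∀ u : Fin m → K, ∃ P : ES.Pt s K, OnV X u → ES.OnW W P ∧ InG G P u := fun u => by
    by_cases hu : OnV X u
    · obtain ⟨P, hP⟩ := hG.onX K u hu
      exact ⟨P, fun _ => hP⟩
    · exact ⟨ES.o s K, fun h => absurd h hu⟩
  choose w hw using hw
  obtain ⟨N, hN, h1⟩ := hk0 k hk K (fun i => (z i).mapDomain w) (fun i => by
      rw [Finsupp.sum_mapDomain_index (fun _ => rfl) (fun _ _ _ => rfl)]
      exact hdeg i) (fun i P hP => by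
      obtain ⟨u, hu, rfl⟩ := Finset.mem_image.1 (Finsupp.mapDomain_support hP)
      exact (hw u (hz i u hu)).1)
  rw [← altX_map] at h1
  exact transfer_rel hW hX hG K hw (altX_supp hz) hN h1

end H79.GM
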