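import Pool.Agent.H79.GM.Def

/-! # GM.Ev : values of weighted homogeneous polynomials (any index type), reduction, specialisation of coordinate vectors

`aeval_scale`: as `ES.ev_scale` (`H34/ES/Spc.lean`): sum over the monomials; `IsWeightedHomogeneous w f e` says that `coeff d f ≠ 0` implies `weight w d = e`; `∏ (c^(w i) z_i)^(d i) = c^(weight w d) ∏ z_i^(d i)` (`Finsupp.weight_apply`, `Finset.prod_pow_eq_pow_sum`).
`rd_aeval`: induction on `f` (`MvPolynomial.induction_on`), as `ES.rd_ev`; constants: `π.const (algebraMap K0 K c)` and `IsScalarTower.algebraMap_apply K0 K (Om K)`.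
`aeval_hom`: `MvPolynomial.comp_aeval_apply`.
`onV_sp`: the reduced vector is a point of `X`: `f(c^w U) = c^e f(U) = 0` reduces to `f(u)` (`Rd.unique`, `Rd.zero`).
`inG_sp`: `Γ` is closed: `f(c·P, d·U) = c^(e) d^(e') f(P, U) = 0` (`aeval_scale` twice with the weights `Sum.elim (wtG W) 0` and `Sum.elim 0 X.w`) reduces to `f(p, u)`.
`xv_fin`: every coordinate is algebraic over `RatFunc K`, so its images under the automorphisms are roots of its minimal polynomial (finitely many); a set of functions `Fin m → Om K` with values in finite sets is finite (`Set.Finite.pi'`). -/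

namespace H79.GM

open H68.BB

variable {K0 : Type} [Field K0] {s m : ℕ}

theorem aeval_scale {ι F : Type} [Fintype ι] [Field F] [Algebra K0 F] {w : ι → ℕ} {f : MvPolynomial ι K0} {e : ℕ}
    (h : MvPolynomial.IsWeightedHomogeneous w f e) (z : ι → F) (c : F) :
    MvPolynomial.aeval (fun i => c ^ w i * z i) f = c ^ e * MvPolynomial.aeval z f := by
  rw [MvPolynomial.aeval_def, MvPolynomial.aeval_def, MvPolynomial.eval₂_eq', MvPolynomial.eval₂_eq',
    Finset.mul_sum]
  refine Finset.sum_congr rfl fun d hd => ?_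
  have h1 : ∏ i, (c ^ w i) ^ d i = c ^ e := by
    have h2 := h (MvPolynomial.mem_support_iff.1 hd)
    rw [← h2, Finsupp.weight_apply, Finsupp.sum_fintype _ _ (fun i => by simp), ← Finset.prod_pow_eq_pow_sum]
    refine Finset.prod_congr rfl fun i _ => ?_
    rw [← pow_mul, smul_eq_mul, mul_comm]
  simp only [mul_pow, Finset.prod_mul_distrib]
  rw [h1]
  ring

theorem rd_aeval {ι K : Type} [Field K] [Algebra K0 K] {π : Place K (Om K)} (f : MvPolynomial ι K0) {z : ι → Om K} {z' : ι → K}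
    (h : ∀ i, Rd π.V π.φ (z i) (z' i)) : Rd π.V π.φ (MvPolynomial.aeval z f) (MvPolynomial.aeval z' f) := by
  induction f using MvPolynomial.induction_on with
  | C c =>
    rw [MvPolynomial.aeval_C, MvPolynomial.aeval_C, IsScalarTower.algebraMap_apply K0 K (Om K)]
    exact π.const _
  | add p q hp hq => rw [map_add, map_add]; exact hp.add hq
  | mul_X p i hp =>
    rw [map_mul, map_mul, MvPolynomial.aeval_X, MvPolynomial.aeval_X]
    exact hp.mul (h i)

theorem aeval_hom {ι F F' : Type} [Field F] [Algebra K0 F] [Field F'] [Algebra K0 F'] (φ : F →ₐ[K0] F') (f : MvPolynomial ι K0) (z : ι → F) :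
    MvPolynomial.aeval (fun i => φ (z i)) f = φ (MvPolynomial.aeval z f) := by
  induction f using MvPolynomial.induction_on with
  | C c => rw [MvPolynomial.aeval_C, MvPolynomial.aeval_C, AlgHom.commutes]
  | add p q hp hq => rw [map_add, map_add, map_add, hp, hq]
  | mul_X p i hp => rw [map_mul, map_mul, map_mul, MvPolynomial.aeval_X, MvPolynomial.aeval_X, hp]

section
variable {K : Type} [Field K] [Algebra K0 K]

private theorem sigma_aeval {ι : Type} (σ : Om K ≃ₐ[RatFunc K] Om K) (f : MvPolynomial ι K0) (z : ι → Om K) :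
    MvPolynomial.aeval (fun i => σ (z i)) f = σ (MvPolynomial.aeval z f) := by
  induction f using MvPolynomial.induction_on with
  | C c =>
    rw [MvPolynomial.aeval_C, MvPolynomial.aeval_C, IsScalarTower.algebraMap_apply K0 K (Om K)]
    exact (H67.KH.sigma_cst σ _).symm
  | add p q hp hq => rw [map_add, map_add, map_add, hp, hq]
  | mul_X p i hp => rw [map_mul, map_mul, map_mul, MvPolynomial.aeval_X, MvPolynomial.aeval_X, hp]

private theorem ne_zero_comp {F F' : Type} [Field F] [Field F'] {φ : F → F'} (h0 : ∀ x, φ x = 0 → x = 0) {u : Fin m → F}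
    (h : u ≠ 0) : (fun j => φ (u j)) ≠ 0 := by
  intro h1
  apply h
  funext j
  exact h0 _ (congrFun h1 j)

theorem onV_sigma {X : Var K0 m} (σ : Om K ≃ₐ[RatFunc K] Om K) {U : Fin m → Om K} (h : OnV X U) : OnV X fun j => σ (U j) := by
  refine ⟨ne_zero_comp (fun x hx => (map_eq_zero_iff σ σ.injective).1 hx) h.1, fun f hf => ?_⟩
  rw [sigma_aeval, h.2 f hf, map_zero]

theorem onV_cst {X : Var K0 m} {u : Fin m → K} (h : OnV X u) : OnV X fun j => algebraMap K (Om K) (u j) := by
  refine ⟨ne_zero_comp (fun x hx => (map_eq_zero_iff _ (algebraMap K (Om K)).injective).1 hx) h.1, fun f hf => ?_⟩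
  have h1 := MvPolynomial.aeval_algebraMap_apply (Om K) u f
  have h2 : MvPolynomial.aeval (fun j => algebraMap K (Om K) (u j)) f = algebraMap K (Om K) (MvPolynomial.aeval u f) := h1
  rw [h2, h.2 f hf, map_zero]

theorem onV_sp {X : Var K0 m} (hX : X.Ok) {π : Place K (Om K)} {U : Fin m → Om K} {u : Fin m → K} (h : OnV X U)
    (hs : FX.SpV X.w π U u) : OnV X u := by
  obtain ⟨hu, d, hd, hr⟩ := hs
  refine ⟨hu, fun f hf => ?_⟩
  obtain ⟨e, he⟩ := hX.J f hf
  have h1 := rd_aeval f hr
  rw [aeval_scale he, h.2 f hf, mul_zero] at h1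
  exact h1.unique Rd.zero

theorem inG_sigma {G : Set (MvPolynomial ((Fin s ⊕ Fin 2) ⊕ Fin m) K0)} (σ : Om K ≃ₐ[RatFunc K] Om K) {P : ES.Pt s (Om K)} {U : Fin m → Om K}
    (h : InG G P U) : InG G (P.map σ) fun j => σ (U j) := by
  intro f hf
  have h1 : (Sum.elim (Sum.elim (P.map σ).β ![(P.map σ).x, (P.map σ).y]) fun j => σ (U j) : (Fin s ⊕ Fin 2) ⊕ Fin m → Om K) =
      fun i => σ (Sum.elim (Sum.elim P.β ![P.x, P.y]) U i) := by
    funext i
    rcases i with (i | i) | i
    · rfl
    · fin_cases i <;> rfl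
    · rfl
  rw [h1, sigma_aeval, h f hf, map_zero]

theorem inG_sp {W : ES.Wm K0 s} {X : Var K0 m} {G : Set (MvPolynomial ((Fin s ⊕ Fin 2) ⊕ Fin m) K0)} (hG : BiHom W X G) {π : Place K (Om K)}
    {P : ES.Pt s (Om K)} {p : ES.Pt s K} {U : Fin m → Om K} {u : Fin m → K} (h : InG G P U) (hP : ES.Sp (H77.PB.bc K W) π P p)
    (hU : FX.SpV X.w π U u) : InG G p u := by
  intro f hf
  obtain ⟨-, c, hc, h0, h2, h3⟩ := hP
  obtain ⟨-, d, hd, hr⟩ := hU
  obtain ⟨⟨e, he⟩, e', he'⟩ := hG f hf
  have h1 : ∀ i, Rd π.V π.φ (c ^ (Sum.elim (H77.PB.wtG W) (fun _ => 0) i : ℕ) *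
      (d ^ (Sum.elim (fun _ => 0) X.w i : ℕ) * (Sum.elim (Sum.elim P.β ![P.x, P.y]) U i : Om K)))
      (Sum.elim (Sum.elim p.β ![p.x, p.y]) u i : K) := by
    intro i
    rcases i with (i | i) | i
    · change Rd π.V π.φ (c ^ W.v i * (d ^ 0 * P.β i)) (p.β i)
      rw [pow_zero, one_mul]
      exact h0 i
    · fin_cases i
      · change Rd π.V π.φ (c ^ (2 * W.n) * (d ^ 0 * P.x)) p.x
        rw [pow_zero, one_mul]
        exact h2
      · change Rd π.V π.φ (c ^ (3 * W.n) * (d ^ 0 * P.y)) p.y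
        rw [pow_zero, one_mul]
        exact h3
    · change Rd π.V π.φ (c ^ 0 * (d ^ X.w i * U i)) (u i)
      rw [pow_zero, one_mul]
      exact hr i
  have h4 := rd_aeval f h1
  rw [aeval_scale he, aeval_scale he', h f hf, mul_zero, mul_zero] at h4
  exact h4.unique Rd.zero

theorem vec_fin (U : Fin m → Om K) : (Set.range fun (σ : Om K ≃ₐ[RatFunc K] Om K) (j : Fin m) => σ (U j)).Finite := by
  have h1 : ∀ j, ((minpoly (RatFunc K) (U j)).rootSet (Om K)).Finite := fun j => Polynomial.rootSet_finite _ _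
  refine (Set.Finite.pi' h1).subset ?_
  rintro _ ⟨σ, rfl⟩ j
  change σ (U j) ∈ (minpoly (RatFunc K) (U j)).rootSet (Om K)
  have hint : IsIntegral (RatFunc K) (U j) := Algebra.IsIntegral.isIntegral _
  rw [Polynomial.mem_rootSet]
  refine ⟨minpoly.ne_zero hint, ?_⟩
  have h2 := Polynomial.aeval_algHom_apply (σ : Om K →ₐ[RatFunc K] Om K) (U j) (minpoly (RatFunc K) (U j))
  rw [minpoly.aeval, map_zero] at h2
  exact h2

end

end H79.GM
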