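import Pool.Agent.H79.GM.Main
import Pool.Agent.H99.RR.YRes
import Pool.Agent.H71.ER.Box
import Pool.Agent.H79.BC.SmC

/-! # GM.Res : the alternating products, with a bound which depends on `W` only, and an explicit bound over a smooth base -/

namespace H79.GM

open H68.BB H77.AF H77.PB

variable {K0 : Type} [Field K0] {s m : ℕ} {W : ES.Wm K0 s} {X : Var K0 m} {G : Set (MvPolynomial ((Fin s ⊕ Fin 2) ⊕ Fin m) K0)}

private theorem prodX_supp {T : Type} {p : T → Prop} {k : ℕ} {z : Fin k → (T →₀ ℤ)} (hz : ∀ i, ∀ u ∈ (z i).support, p u) :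
    ∀ P ∈ (prodX z).support, ∀ i, p (P i) := by
  intro P hP i
  rw [Finsupp.mem_support_iff, prodX_apply] at hP
  refine hz i (P i) (Finsupp.mem_support_iff.2 fun h => hP ?_)
  exact Finset.prod_eq_zero (Finset.mem_univ i) h

theorem altX_supp {T : Type} {p : T → Prop} {k : ℕ} {z : Fin k → (T →₀ ℤ)} (hz : ∀ i, ∀ u ∈ (z i).support, p u) :
    ∀ P ∈ (altX z).support, ∀ i, p (P i) := by
  classical
  intro P hP i
  by_contra hi
  rw [Finsupp.mem_support_iff] at hP
  apply hP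
  unfold altX
  rw [Finsupp.finsetSum_apply]
  refine Finset.sum_eq_zero fun σ _ => ?_
  have h1 : prodX (fun i => z (σ i)) P = 0 := by
    by_contra h2
    exact hi (prodX_supp (p := p) (fun i => hz (σ i)) P (Finsupp.mem_support_iff.2 h2) i)
  rw [Finsupp.smul_apply, h1, smul_zero]

/-- if the alternating products of `k` zero-cycles of degree zero are torsion on `W^k` then they are on `X^k` -/
theorem gm_of (hW : W.Ok) (hX : X.Ok) (hG : Dom W X G) (K : Type) [Field K] [IsAlgClosed K] [Algebra K0 K] {k : ℕ}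
    (hk : ∀ z : Fin k → (ES.Pt s K →₀ ℤ), (∀ i, ((z i).sum fun _ n => n) = 0) → (∀ i, ∀ P ∈ (z i).support, ES.OnW W P) →
      ∃ N : ℕ, 0 < N ∧ N • altX z ∈ ES.RatEq k (bc K W)) (z : Fin k → ((Fin m → K) →₀ ℤ))
    (hdeg : ∀ i, ((z i).sum fun _ n => n) = 0) (hz : ∀ i, ∀ u ∈ (z i).support, OnV X u) :
    ∃ N : ℕ, 0 < N ∧ N • altX z ∈ RatV X K k := by
  classical
  have hw : ∀ u : Fin m → K, ∃ P : ES.Pt s K, OnV X u → ES.OnW W P ∧ InG G P u := fun u => by
    by_cases hu : OnV X u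
    · obtain ⟨P, hP⟩ := hG.onX K u hu
      exact ⟨P, fun _ => hP⟩
    · exact ⟨ES.o s K, fun h => absurd h hu⟩
  choose w hw using hw
  obtain ⟨N, hN, h1⟩ := hk (fun i => (z i).mapDomain w) (fun i => by
      rw [Finsupp.sum_mapDomain_index (fun _ => rfl) (fun _ _ _ => rfl)]
      exact hdeg i) (fun i P hP => by
      obtain ⟨u, hu, rfl⟩ := Finset.mem_image.1 (Finsupp.mapDomain_support hP)
      exact (hw u (hz i u hu)).1)
  rw [← altX_map] at h1
  exact transfer_rel hW hX hG K hw (altX_supp hz) hN h1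

/-- the bound depends on `W` only -/
theorem gm_one [IsAlgClosed K0] [CharZero K0] (hW : W.Ok) (hC : Curve W) (hD : W.b ^ 2 - W.a ^ 3 ∉ Ideal.span W.I) :
    ∃ k0 : ℕ, ∀ (m : ℕ) (X : Var K0 m) (G : Set (MvPolynomial ((Fin s ⊕ Fin 2) ⊕ Fin m) K0)), X.Ok → Dom W X G →
      ∀ k, k0 ≤ k → ∀ (K : Type) [Field K] [IsAlgClosed K] [Algebra K0 K] (z : Fin k → ((Fin m → K) →₀ ℤ)),
        (∀ i, ((z i).sum fun _ n => n) = 0) → (∀ i, ∀ u ∈ (z i).support, OnV X u) →
        ∃ N : ℕ, 0 < N ∧ N • altX z ∈ RatV X K k := by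
  obtain ⟨k0, hk0⟩ := main_alt hW hC hD
  refine ⟨k0, ?_⟩
  intro m X G hX hG k hk K _ _ _ z hdeg hz
  exact gm_of hW hX hG K (fun z h1 h2 => hk0 k hk K z h1 h2) z hdeg hz

/-- the two forms of the alternating sum agree -/
theorem altz_altX {K : Type} {k : ℕ} (z : Fin k → (ES.Pt s K →₀ ℤ)) : ES.altz z = altX z := by
  classical
  unfold ES.altz altX
  refine Finset.sum_congr rfl fun σ _ => ?_
  congr 1
  ext P
  rw [ES.box_apply, prodX_apply]

/-- the explicit bound over a smooth base -/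
theorem gm_exp [IsAlgClosed K0] [CharZero K0] {d g : ℕ} (hW : W.Ok) (hB : RR.SmC W.v W.I d g)
    (hab : ∀ c e : K0, MvPolynomial.C c * W.a ^ 3 - MvPolynomial.C e * W.b ^ 2 ∈ Ideal.span W.I → c = 0 ∧ e = 0)
    (hX : X.Ok) (hG : Dom W X G) {k : ℕ} (hk : W.n * d + g ≤ k) (K : Type) [Field K] [IsAlgClosed K] [Algebra K0 K]
    (z : Fin k → ((Fin m → K) →₀ ℤ)) (hdeg : ∀ i, ((z i).sum fun _ n => n) = 0) (hz : ∀ i, ∀ u ∈ (z i).support, OnV X u) :
    ∃ N : ℕ, 0 < N ∧ N • altX z ∈ RatV X K k := by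
  have hch : CharZero K := charZero_of_injective_algebraMap (algebraMap K0 K).injective
  have hab' : ∀ c e : K, MvPolynomial.C c * (bc K W).a ^ 3 - MvPolynomial.C e * (bc K W).b ^ 2 ∈ Ideal.span (bc K W).I → c = 0 ∧ e = 0 :=
    fun c e h => by
      refine BC.indep_bc hab c e ?_
      rw [map_pow, map_pow]
      exact h
  refine gm_of hW hX hG K (fun z h1 h2 => ?_) z hdeg hz
  rw [← altz_altX]
  exact ES.altz_mem h1 fun _ hP => RR.main_sm (W := bc K W) (bc_ok hW) (BC.smC_bc hB) hab' hk fun i => bc_on.2 (h2 i _ (hP i))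

end H79.GM
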