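import Pool.Agent.H77.PB.Def
import Pool.Agent.H8.FX.Def

/-! # GM.Def : varieties dominated by an elliptic surface (definitions only, no sorry)

`W : y^2 = x^3 - 3 a x - 2 b` an elliptic surface over a base curve over `K0` (`ES.Wm`, `H77.PB.Curve`), `X` a closed subset of a weighted projective space over `K0`, `Γ ⊂ W × X` a closed subset, `K` a field containing `K0`, `Om K` the
algebraic closure of `K(t)`, `Place K (Om K)` a `K`-rational place of it (`H68.BB.Def`), `FX.SpV w π U u`: some multiple `(c^(w_i) U_i)` of the coordinate vector `U` is integral and reduces to `u ≠ 0` (`H8/FX/Def`). -/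

namespace H79.GM

open H68.BB

/-- a closed subset of a weighted projective space over `K0`: the weights and the equations -/
structure Var (K0 : Type) [Field K0] (m : ℕ) where
  /-- the weights of the coordinates -/
  w : Fin m → ℕ
  /-- the equations -/
  J : Set (MvPolynomial (Fin m) K0)

variable {K0 : Type} [Field K0] {s m : ℕ}

/-- positive weights, weighted homogeneous equations -/
structure Var.Ok (X : Var K0 m) : Prop where
  w : ∀ i, 0 < X.w i
  J : ∀ f ∈ X.J, ∃ e, MvPolynomial.IsWeightedHomogeneous X.w f e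

/-- `u` is a coordinate vector of a point of `X` over `F` -/
def OnV {F : Type} [Field F] [Algebra K0 F] (X : Var K0 m) (u : Fin m → F) : Prop :=
  u ≠ 0 ∧ ∀ f ∈ X.J, MvPolynomial.aeval u f = 0

/-- the zero-cycle on `X^k` given by a multiset of `k`-tuples of coordinate vectors -/
noncomputable def cycV {K : Type} {k : ℕ} (c : Multiset (Fin k → Fin m → K)) : (Fin k → Fin m → K) →₀ ℤ :=
  (c.map fun P => (Finsupp.single P 1 : (Fin k → Fin m → K) →₀ ℤ)).sum

/-- zero-cycles of `X^k` over `K` rationally equivalent to zero: the subgroup generated by the differences of two fibres over `ℙ¹` of effective 1-cycles of `ℙ¹ × X^k` which are dominant over `ℙ¹` (finite multisets `S` of `k`-tuples of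
points of `X` over `Om K`, stable under the automorphisms of `Om K` over `K(t)`), specialised at two places; it contains the differences of proportional coordinate vectors -/
noncomputable def RatV (X : Var K0 m) (K : Type) [Field K] [Algebra K0 K] (k : ℕ) : AddSubgroup ((Fin k → Fin m → K) →₀ ℤ) :=
  AddSubgroup.closure {z | ∃ (S : Multiset (Fin k → Fin m → Om K)) (π π' : Place K (Om K)) (c c' : Multiset (Fin k → Fin m → K)),
    (∀ P ∈ S, ∀ i, OnV X (P i)) ∧ (∀ σ : Om K ≃ₐ[RatFunc K] Om K, S.map (fun P i j => σ (P i j)) = S) ∧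
    Multiset.Rel (fun P p => ∀ i, FX.SpV X.w π (P i) (p i)) S c ∧ Multiset.Rel (fun P p => ∀ i, FX.SpV X.w π' (P i) (p i)) S c' ∧
    z = cycV c - cycV c'}

/-- equations of a closed subset `Γ` of `W × X`: polynomials in `(β, x, y)` and `u`, weighted homogeneous in both groups of coordinates -/
def BiHom (W : ES.Wm K0 s) (X : Var K0 m) (G : Set (MvPolynomial ((Fin s ⊕ Fin 2) ⊕ Fin m) K0)) : Prop :=
  ∀ f ∈ G, (∃ e, MvPolynomial.IsWeightedHomogeneous (Sum.elim (H77.PB.wtG W) fun _ => 0) f e) ∧
    ∃ e, MvPolynomial.IsWeightedHomogeneous (Sum.elim (fun _ => 0) X.w) f e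

/-- the point `(P, u)` lies on `Γ` -/
def InG {F : Type} [Field F] [Algebra K0 F] (G : Set (MvPolynomial ((Fin s ⊕ Fin 2) ⊕ Fin m) K0)) (P : ES.Pt s F) (u : Fin m → F) :
    Prop :=
  ∀ f ∈ G, MvPolynomial.aeval (Sum.elim (Sum.elim P.β ![P.x, P.y]) u) f = 0

/-- `X` is dominated by `W`: over every algebraically closed field containing `K0` the closed subset `Γ` of `W × X` maps onto `W` and onto `X`, and any two points of `X` over the same point of `W` are rationally equivalent up to torsion -/
structure Dom (W : ES.Wm K0 s) (X : Var K0 m) (G : Set (MvPolynomial ((Fin s ⊕ Fin 2) ⊕ Fin m) K0)) : Prop where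
  hom : BiHom W X G
  onW : ∀ (K : Type) [Field K] [IsAlgClosed K] [Algebra K0 K] (P : ES.Pt s K), ES.OnW W P → ∃ u : Fin m → K, OnV X u ∧ InG G P u
  onX : ∀ (K : Type) [Field K] [IsAlgClosed K] [Algebra K0 K] (u : Fin m → K), OnV X u → ∃ P : ES.Pt s K, ES.OnW W P ∧ InG G P u
  uniq : ∀ (K : Type) [Field K] [IsAlgClosed K] [Algebra K0 K] (P : ES.Pt s K) (u u' : Fin m → K), ES.OnW W P → OnV X u → OnV X u' →
    InG G P u → InG G P u' → ∃ N : ℕ, 0 < N ∧
      N • (Finsupp.single (fun _ => u) 1 - Finsupp.single (fun _ => u') 1 : (Fin 1 → Fin m → K) →₀ ℤ) ∈ RatV X K 1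

end H79.GM
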