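import Mathlib

/-! # GM.Lift : lifting a stable multiset along an equivariant relation (Mathlib only)

`G` acts on `A` and `B`, `R : A → B → Prop` is total and equivariant, the orbits of `B` are finite.  Then every stable finite multiset `S` of `A` has, for some `N > 0`, a stable `T` with `N • S` and `T` in the relation `R` (element by element).

Proof.  Choose `q : A → B` with `R a (q a)`.  `OA = {a | a ∈ S}` is finite and stable, `OB = ⋃_{a ∈ OA} orbit (q a)` is finite and stable.  Let `ρ` be the map from `G` to the pairs of maps of `OA` and `OB`,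
`Q = range ρ` (finite), `s : Q → G` a section.  `T = S.bind (fun a => univ.val.map (fun γ : Q => s γ • q ((s γ)⁻¹ • a)))`, `N = card Q`.
`Rel`: `N • S = S.bind (fun a => replicate N a)`, `R a (s γ • q ((s γ)⁻¹ • a))` by equivariance (`Multiset.rel_bind`, `Multiset.rel_replicate_left`).
Stability: `T.map (g • ·) = S.bind (fun a => univ.val.map (fun γ => g • s γ • q ((s γ)⁻¹ • a)))`; for `a ∈ S` and `γ' = ρ (g * s γ)` the elements `s γ'` and `g * s γ` act in the same way on `OA` and `OB`, so `g • s γ • q ((s γ)⁻¹ • a) = s γ' • q ((s γ')⁻¹ • g • a)`;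
reindex by `γ ↦ γ'` and use `S.map (g • ·) = S`. -/

namespace H79.GM

private theorem nsmul_bind {A : Type} (N : ℕ) (S : Multiset A) : N • S = S.bind fun a => Multiset.replicate N a := by
  induction S using Multiset.induction_on with
  | empty => simp
  | cons a S ih =>
    rw [Multiset.cons_bind, ← ih, ← Multiset.singleton_add, nsmul_add, Multiset.nsmul_singleton]

private theorem rel_rep {A B : Type} {R : A → B → Prop} {a : A} (m : Multiset B) (h : ∀ x ∈ m, R a x) :
    Multiset.Rel R (Multiset.replicate (Multiset.card m) a) m := by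
  induction m using Multiset.induction_on with
  | empty => exact Multiset.Rel.zero
  | cons b m ih =>
    rw [Multiset.card_cons, Multiset.replicate_succ]
    exact Multiset.Rel.cons (h b (Multiset.mem_cons_self b m)) (ih fun x hx => h x (Multiset.mem_cons_of_mem hx))

theorem lift_stable {G A B : Type} [Group G] [MulAction G A] [MulAction G B] {R : A → B → Prop} (htot : ∀ a, ∃ b, R a b)
    (hact : ∀ (g : G) (a : A) (b : B), R a b → R (g • a) (g • b)) (hfin : ∀ b : B, (MulAction.orbit G b).Finite) (S : Multiset A)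
    (hS : ∀ g : G, S.map (fun a => g • a) = S) :
    ∃ (N : ℕ) (T : Multiset B), 0 < N ∧ (∀ g : G, T.map (fun b => g • b) = T) ∧ Multiset.Rel R (N • S) T := by
  classical
  choose q hq using htot
  have hSmem : ∀ (g : G) (a : A), a ∈ S → g • a ∈ S := by
    intro g a ha
    rw [← hS g]
    exact Multiset.mem_map_of_mem _ ha
  let OA : Set A := {a | a ∈ S}
  have hOA : OA.Finite := by
    refine (S.toFinset.finite_toSet).subset fun a ha => ?_
    rw [Finset.mem_coe, Multiset.mem_toFinset]
    exact ha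
  let OB : Set B := ⋃ a ∈ OA, MulAction.orbit G (q a)
  have hOB : OB.Finite := hOA.biUnion fun a _ => hfin (q a)
  have hOBmem : ∀ (g : G) (b : B), b ∈ OB → g • b ∈ OB := by
    intro g b hb
    rw [Set.mem_iUnion₂] at hb ⊢
    obtain ⟨a, ha, h, hb⟩ := hb
    refine ⟨a, ha, g * h, ?_⟩
    change (g * h) • q a = g • b
    rw [mul_smul]
    exact congrArg (g • ·) hb
  have hqOB : ∀ a ∈ OA, q a ∈ OB := by
    intro a ha
    rw [Set.mem_iUnion₂]
    exact ⟨a, ha, MulAction.mem_orbit_self _⟩
  haveI : Finite OA := hOA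
  haveI : Finite OB := hOB
  let ρ : G → (OA → OA) × (OB → OB) := fun g =>
    (fun a => ⟨g • a.1, hSmem g a.1 a.2⟩, fun b => ⟨g • b.1, hOBmem g b.1 b.2⟩)
  have hρ : ∀ g h : G, ρ g = ρ h → (∀ a ∈ OA, g • a = h • a) ∧ ∀ b ∈ OB, g • b = h • b := by
    intro g h hgh
    constructor
    · intro a ha
      exact congrArg Subtype.val (congrFun (congrArg Prod.fst hgh) ⟨a, ha⟩)
    · intro b hb
      exact congrArg Subtype.val (congrFun (congrArg Prod.snd hgh) ⟨b, hb⟩)
  have hρmul : ∀ k g h : G, ρ g = ρ h → ρ (k * g) = ρ (k * h) := by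
    intro k g h hgh
    obtain ⟨h1, h2⟩ := hρ g h hgh
    refine Prod.ext (funext fun a => Subtype.ext ?_) (funext fun b => Subtype.ext ?_)
    · change (k * g) • a.1 = (k * h) • a.1
      rw [mul_smul, mul_smul, h1 a.1 a.2]
    · change (k * g) • b.1 = (k * h) • b.1
      rw [mul_smul, mul_smul, h2 b.1 b.2]
  let Q := Set.range ρ
  haveI : Fintype Q := Fintype.ofFinite _
  let s : Q → G := fun γ => γ.2.choose
  have hs : ∀ γ : Q, ρ (s γ) = γ.1 := fun γ => γ.2.choose_spec
  let mv : G → Q → Q := fun g γ => ⟨ρ (g * s γ), g * s γ, rfl⟩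
  have hmv : ∀ g γ, ρ (s (mv g γ)) = ρ (g * s γ) := fun g γ => hs (mv g γ)
  have hmvinv : ∀ g γ, mv g⁻¹ (mv g γ) = γ := by
    intro g γ
    apply Subtype.ext
    change ρ (g⁻¹ * s (mv g γ)) = γ.1
    rw [hρmul g⁻¹ _ _ (hmv g γ), inv_mul_cancel_left, hs]
  let H : A → Multiset B := fun a => (Finset.univ : Finset Q).val.map fun γ => s γ • q ((s γ)⁻¹ • a)
  refine ⟨Fintype.card Q, S.bind H, ?_, ?_, ?_⟩
  · exact Fintype.card_pos_iff.2 ⟨⟨ρ 1, 1, rfl⟩⟩
  · intro g
    let mve : Q ≃ Q := ⟨mv g, mv g⁻¹, hmvinv g, fun γ => by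
      have := hmvinv g⁻¹ γ
      rwa [inv_inv] at this⟩
    have huniv : (Finset.univ : Finset Q).val.map mve = (Finset.univ : Finset Q).val := by
      have h1 := congrArg Finset.val (Finset.map_univ_equiv mve)
      exact h1
    have key : ∀ a ∈ S, (H a).map (fun b => g • b) = H (g • a) := by
      intro a ha
      change ((Finset.univ : Finset Q).val.map fun γ => s γ • q ((s γ)⁻¹ • a)).map (fun b => g • b) =
        (Finset.univ : Finset Q).val.map fun γ => s γ • q ((s γ)⁻¹ • (g • a))
      rw [Multiset.map_map]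
      conv_rhs => rw [← huniv, Multiset.map_map]
      refine Multiset.map_congr rfl fun γ _ => ?_
      change g • s γ • q ((s γ)⁻¹ • a) = s (mv g γ) • q ((s (mv g γ))⁻¹ • (g • a))
      obtain ⟨h1, h2⟩ := hρ _ _ (hmv g γ)
      have ha1 : (s γ)⁻¹ • a ∈ OA := hSmem _ _ ha
      have h3 := h1 _ ha1
      rw [mul_smul, smul_inv_smul] at h3
      have h4 : (s (mv g γ))⁻¹ • (g • a) = (s γ)⁻¹ • a := by
        rw [← h3, inv_smul_smul]
      rw [h4, h2 _ (hqOB _ ha1), mul_smul]
    rw [Multiset.map_bind]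
    calc S.bind (fun a => (H a).map fun b => g • b) = S.bind fun a => H (g • a) :=
          Multiset.bind_congr key
      _ = (S.map fun a => g • a).bind H := by rw [Multiset.bind_map]
      _ = S.bind H := by rw [hS]
  · rw [nsmul_bind]
    refine Multiset.rel_bind (r := Eq) ?_ (Multiset.rel_eq.2 rfl)
    rintro a _ rfl
    have h1 : Multiset.card (H a) = Fintype.card Q := by
      change Multiset.card ((Finset.univ : Finset Q).val.map fun γ => s γ • q ((s γ)⁻¹ • a)) = Fintype.card Q
      rw [Multiset.card_map]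
      rfl
    change Multiset.Rel R (Multiset.replicate (Fintype.card Q) a) (H a)
    rw [← h1]
    refine rel_rep _ fun b hb => ?_
    obtain ⟨γ, -, rfl⟩ := Multiset.mem_map.1 hb
    have h2 := hact (s γ) _ _ (hq ((s γ)⁻¹ • a))
    rwa [smul_inv_smul] at h2

end H79.GM
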